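import Mathlib
import Pool.Agent.H17.JTHadamard.Proof

/-!
Hadamard products of (dual) Jacobi-Trudi matrices: monomial positivity of the determinant fails.
The definitions are in `Pool.Agent.H17.JTHadamard.Defs`.
-/

namespace Pool.Agent.Results.MP_f8aafe_co.HadamardNegative

open Pool.Agent.H17.JTHadamard

/-- For all `n ≥ 3` and `k ≥ 2` there are skew shapes with exactly `n` nonzero rows
`lam⁽¹⁾/mu⁽¹⁾, ..., lam⁽ᵏ⁾/mu⁽ᵏ⁾` such that the determinant (the Temperley-Lieb immanant for
`τ = 1`) of the Hadamard product of the matrices `J_{lam⁽ⁱ⁾/mu⁽ⁱ⁾}(x⁽ⁱ⁾)` in disjoint sequences of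
variables has a negative coefficient. -/
theorem result (n k : ℕ) (hn : 3 ≤ n) (hk : 2 ≤ k) :
    ∃ (S : Fin k → SkewShape n) (d : (Fin k × ℕ) →₀ ℕ),
      MvPowerSeries.coeff d (hadamardJT S).det < 0 :=
  main n k hn hk

end Pool.Agent.Results.MP_f8aafe_co.HadamardNegative
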